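import Pool.Agent.Q176.AB.A4
import Pool.Agent.Q176.AB.U

/-!
# An invariant measure of a billiard map without Oseledets integrability

The table is the annulus `1 ≤ |q| ≤ 2`, whose boundary is smooth. The invariant measure is a
countable mixture of the uniform measures on the invariant curves of irrational rotation whose
angular momentum tends to that of the grazing orbits.
-/

open MeasureTheory Q176.AB

set_option autoImplicit false

/-- The annulus `Q = {1 ≤ |q| ≤ 2}` is a billiard table without corners, and its billiard map has a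
non-periodic invariant probability measure `μ` (given together with a map `T` which is the billiard
map almost everywhere), for which `log⁺ ‖D_x T‖` is not integrable: the derivative in the
coordinates (arclength, angle) exists almost everywhere and is unique, and no `μ`-integrable function
`g` satisfies `log⁺ ‖D_x T‖ ≤ g x` almost everywhere. -/
theorem Pool.Agent.Results.MP_94eb8e_an.AnnulusMeasure.result :
    ∃ (B : Table) (T : ℂ × ℂ → ℂ × ℂ) (μ : Measure (ℂ × ℂ)),
      B.Q = {q : ℂ | 1 ≤ ‖q‖ ∧ ‖q‖ ≤ 2} ∧
      (∀ x y z, B.Step x y → B.Step x z → y = z) ∧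
      (∀ x A A', B.HasD x A → B.HasD x A' → A = A') ∧
      B.Invariant T μ ∧ NonPeriodic T μ ∧
      (∀ᵐ x ∂μ, ∃ A, B.HasD x A) ∧
      ¬ ∃ g : ℂ × ℂ → ℝ, Integrable g μ ∧
        ∀ᵐ x ∂μ, ∀ A, B.HasD x A → Real.posLog ‖A‖ ≤ g x := by
  obtain ⟨T, μ, h1, h2, h3, h4⟩ := main
  exact ⟨B, T, μ, rfl, fun x y z => Table.step_unique, fun x A A' => Table.hasD_unique, h1, h2, h3,
    h4⟩
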